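import Mathlib
import Pool.Agent.LibMST.Trees

set_option autoImplicit false
set_option linter.unusedSectionVars false

namespace Pool.Agent.LibMSB

open Finset Pool.Agent.LibMST

variable {V : Type*} [Fintype V] [DecidableEq V]

/-- The order of a tree, as a rational number. -/
def ord (p : Finset V × Finset (Sym2 V)) : ℚ := (p.1.card : ℚ)

theorem edges_card {E : Finset (Sym2 V)} {p : Finset V × Finset (Sym2 V)} (hp : p ∈ TP E) :
    (p.2.card : ℚ) = ord p - 1 := by
  rw [mem_TP] at hp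
  obtain ⟨_, r, hg⟩ := hp
  have h := hg.card_eq
  unfold ord
  rw [← h]
  push_cast
  ring

theorem TP_erase (E : Finset (Sym2 V)) (e : Sym2 V) :
    TP (E.erase e) = (TP E).filter (fun p => e ∉ p.2) := by
  ext p
  rw [mem_filter, mem_TP, mem_TP]
  constructor
  · rintro ⟨h1, h2⟩
    refine ⟨⟨h1.trans (erase_subset _ _), h2⟩, fun h => ?_⟩
    exact notMem_erase e E (h1 h)
  · rintro ⟨⟨h1, h2⟩, h3⟩
    refine ⟨?_, h2⟩
    intro a ha
    rw [mem_erase]
    refine ⟨?_, h1 ha⟩
    rintro rfl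
    exact h3 ha

theorem single_mem (E : Finset (Sym2 V)) (v : V) :
    (({v} : Finset V), (∅ : Finset (Sym2 V))) ∈ TP E := by
  rw [mem_TP]
  exact ⟨empty_subset _, v, Grow.base⟩

theorem pair_mem {E : Finset (Sym2 V)} {u v : V} (huv : u ≠ v) (he : s(u, v) ∈ E) :
    ((insert v {u} : Finset V), (insert s(u, v) ∅ : Finset (Sym2 V))) ∈ TP E := by
  rw [mem_TP]
  refine ⟨?_, u, Grow.base.step (mem_singleton_self u) (by simpa using huv.symm)⟩
  intro a ha
  simp only [insert_empty_eq, mem_singleton] at ha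
  rw [ha]
  exact he

/-- The number of trees with edges in `E`. -/
noncomputable def cntN (E : Finset (Sym2 V)) : ℚ := ((TP E).card : ℚ)

/-- The total order of the trees with edges in `E`. -/
noncomputable def cntA (E : Finset (Sym2 V)) : ℚ := ∑ p ∈ TP E, ord p

/-- The sum of the squares of the orders of the trees with edges in `E`. -/
noncomputable def cntQ (E : Finset (Sym2 V)) : ℚ := ∑ p ∈ TP E, ord p ^ 2

/-- The number of trees containing `e`. -/
noncomputable def cntNe (E : Finset (Sym2 V)) (e : Sym2 V) : ℚ :=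
  ∑ p ∈ TP E, if e ∈ p.2 then (1 : ℚ) else 0

/-- The total order of the trees containing `e`. -/
noncomputable def cntAe (E : Finset (Sym2 V)) (e : Sym2 V) : ℚ :=
  ∑ p ∈ TP E, if e ∈ p.2 then ord p else 0

/-- `N²` times the covariance of the order and the indicator of `e`. -/
noncomputable def cov (E : Finset (Sym2 V)) (e : Sym2 V) : ℚ :=
  cntN E * cntAe E e - cntA E * cntNe E e

theorem cntN_erase (E : Finset (Sym2 V)) (e : Sym2 V) :
    cntN (E.erase e) = cntN E - cntNe E e := by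
  unfold cntN cntNe
  rw [TP_erase, ← Finset.sum_filter, Finset.sum_const, nsmul_eq_mul, mul_one]
  have h := Finset.card_filter_add_card_filter_not (s := TP E) (fun p => e ∈ p.2)
  rw [← h]
  push_cast
  ring

theorem cntA_erase (E : Finset (Sym2 V)) (e : Sym2 V) :
    cntA (E.erase e) = cntA E - cntAe E e := by
  unfold cntA cntAe
  rw [TP_erase, ← Finset.sum_filter]
  have h := Finset.sum_filter_add_sum_filter_not (TP E) (fun p => e ∈ p.2) (fun p => ord p)
  rw [← h]
  ring

theorem sum_inc {E : Finset (Sym2 V)} {p : Finset V × Finset (Sym2 V)} (hp : p ∈ TP E) :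
    ∑ e ∈ E, (if e ∈ p.2 then (1 : ℚ) else 0) = ord p - 1 := by
  rw [← Finset.sum_filter, Finset.sum_const, nsmul_eq_mul, mul_one, ← edges_card hp]
  congr 2
  ext a
  rw [mem_filter]
  constructor
  · exact fun h => h.2
  · exact fun h => ⟨(mem_TP.mp hp).1 h, h⟩

theorem sum_cntNe (E : Finset (Sym2 V)) : ∑ e ∈ E, cntNe E e = cntA E - cntN E := by
  unfold cntNe
  rw [Finset.sum_comm]
  rw [Finset.sum_congr rfl (fun p hp => sum_inc hp)]
  rw [Finset.sum_sub_distrib]
  unfold cntA cntN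
  simp

theorem sum_cntAe (E : Finset (Sym2 V)) : ∑ e ∈ E, cntAe E e = cntQ E - cntA E := by
  unfold cntAe
  rw [Finset.sum_comm]
  have h : ∀ p ∈ TP E, ∑ e ∈ E, (if e ∈ p.2 then ord p else 0) = ord p ^ 2 - ord p := by
    intro p hp
    have h1 := sum_inc hp
    have h2 : ∑ e ∈ E, (if e ∈ p.2 then ord p else 0) =
        ord p * ∑ e ∈ E, (if e ∈ p.2 then (1 : ℚ) else 0) := by
      rw [Finset.mul_sum]
      apply Finset.sum_congr rfl
      intro e _
      split_ifs <;> simp
    rw [h2, h1]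
    ring
  rw [Finset.sum_congr rfl h, Finset.sum_sub_distrib]
  rfl

/-- The covariances with the edges add up to the variance. -/
theorem sum_cov (E : Finset (Sym2 V)) :
    ∑ e ∈ E, cov E e = cntN E * cntQ E - cntA E ^ 2 := by
  unfold cov
  rw [Finset.sum_sub_distrib, ← Finset.mul_sum, ← Finset.mul_sum, sum_cntNe, sum_cntAe]
  ring

theorem cntN_pos [Nonempty V] (E : Finset (Sym2 V)) : 0 < cntN E := by
  unfold cntN
  obtain ⟨v⟩ := ‹Nonempty V›
  have : 0 < (TP E).card := card_pos.mpr ⟨_, single_mem E v⟩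
  exact_mod_cast this

/-- The difference of the means, in terms of the covariance. -/
theorem mean_sub [Nonempty V] (E : Finset (Sym2 V)) (e : Sym2 V) :
    cntA E / cntN E - cntA (E.erase e) / cntN (E.erase e) =
      cov E e / (cntN E * cntN (E.erase e)) := by
  have h1 := cntN_pos E
  have h2 := cntN_pos (E.erase e)
  have h3 := cntN_erase E e
  have h4 := cntA_erase E e
  rw [div_sub_div _ _ h1.ne' h2.ne']
  congr 1
  rw [h3, h4]
  unfold cov
  ring

/-- The variance is positive as soon as there is an edge. -/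
theorem var_pos {E : Finset (Sym2 V)} {u v : V} (huv : u ≠ v) (he : s(u, v) ∈ E) :
    0 < cntN E * cntQ E - cntA E ^ 2 := by
  have : Nonempty V := ⟨u⟩
  have hN := cntN_pos E
  set m : ℚ := cntA E / cntN E with hm
  have key : cntN E * cntQ E - cntA E ^ 2 = cntN E * ∑ p ∈ TP E, (ord p - m) ^ 2 := by
    have h1 : ∑ p ∈ TP E, (ord p - m) ^ 2 = cntQ E - 2 * m * cntA E + cntN E * m ^ 2 := by
      have h2 : ∀ p ∈ TP E, (ord p - m) ^ 2 = ord p ^ 2 - 2 * m * ord p + m ^ 2 := by
        intro p _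
        ring
      rw [Finset.sum_congr rfl h2, Finset.sum_add_distrib, Finset.sum_sub_distrib,
        ← Finset.mul_sum]
      unfold cntQ cntA cntN
      simp
    rw [h1, hm]
    field_simp
    ring
  rw [key]
  apply mul_pos hN
  have hs := single_mem E u
  have hp := pair_mem huv he
  by_cases hm1 : m = 1
  · refine lt_of_lt_of_le ?_ (Finset.single_le_sum (fun p _ => sq_nonneg (ord p - m)) hp)
    have : ord ((insert v {u} : Finset V), (insert s(u, v) ∅ : Finset (Sym2 V))) = 2 := by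
      unfold ord
      rw [card_insert_of_notMem (by simpa using huv.symm), card_singleton]
      norm_num
    rw [this, hm1]
    norm_num
  · refine lt_of_lt_of_le ?_ (Finset.single_le_sum (fun p _ => sq_nonneg (ord p - m)) hs)
    have : ord (({u} : Finset V), (∅ : Finset (Sym2 V))) = 1 := by
      unfold ord
      simp
    rw [this]
    have h1 : (1 : ℚ) - m ≠ 0 := sub_ne_zero.mpr (Ne.symm hm1)
    positivity

/-- The covariance with the number of edges of `B` in the tree is at most the standard deviation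
of the order times `b / 2`. -/
theorem sum_cov_sq_le [Nonempty V] (E B : Finset (Sym2 V)) :
    (∑ e ∈ B, cov E e) ^ 2 ≤
      (cntN E * cntQ E - cntA E ^ 2) * (cntN E ^ 2 * (B.card : ℚ) ^ 2 / 4) := by
  -- number of edges of `B` in `p`
  set β : Finset V × Finset (Sym2 V) → ℚ := fun p => ∑ e ∈ B, if e ∈ p.2 then (1 : ℚ) else 0
    with hβ
  have hβ0 : ∀ p, 0 ≤ β p := by
    intro p
    apply Finset.sum_nonneg
    intro e _
    split_ifs <;> norm_num
  have hβ1 : ∀ p, β p ≤ (B.card : ℚ) := by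
    intro p
    have h : β p ≤ ∑ e ∈ B, (1 : ℚ) := by
      apply Finset.sum_le_sum
      intro e _
      split_ifs <;> norm_num
    simpa using h
  have h1 : ∑ e ∈ B, cntNe E e = ∑ p ∈ TP E, β p := by
    unfold cntNe
    rw [Finset.sum_comm]
  have h2 : ∑ e ∈ B, cntAe E e = ∑ p ∈ TP E, ord p * β p := by
    unfold cntAe
    rw [Finset.sum_comm]
    apply Finset.sum_congr rfl
    intro p _
    rw [hβ, Finset.mul_sum]
    apply Finset.sum_congr rfl
    intro e _
    split_ifs <;> simp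
  have h3 : ∑ e ∈ B, cov E e =
      cntN E * (∑ p ∈ TP E, ord p * β p) - cntA E * ∑ p ∈ TP E, β p := by
    unfold cov
    rw [Finset.sum_sub_distrib, ← Finset.mul_sum, ← Finset.mul_sum, h1, h2]
  set b : ℚ := (B.card : ℚ) with hb
  have hN := cntN_pos E
  have hc : ((TP E).card : ℚ) = cntN E := rfl
  set m : ℚ := cntA E / cntN E with hm
  set k : ℚ := (∑ p ∈ TP E, β p) / cntN E with hk
  have hmN : cntA E = m * cntN E := by rw [hm]; field_simp
  have hkN : ∑ p ∈ TP E, β p = k * cntN E := by rw [hk]; field_simp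
  -- Cauchy-Schwarz
  have hCS := Finset.sum_mul_sq_le_sq_mul_sq (TP E) (fun p => ord p - m) (fun p => β p - k)
  have e1 : ∑ p ∈ TP E, (ord p - m) * (β p - k) =
      (∑ p ∈ TP E, ord p * β p) - m * k * cntN E := by
    have h : ∀ p ∈ TP E, (ord p - m) * (β p - k) =
        ord p * β p - k * ord p - m * β p + m * k := by
      intro p _
      ring
    rw [Finset.sum_congr rfl h, Finset.sum_add_distrib, Finset.sum_sub_distrib,
      Finset.sum_sub_distrib, ← Finset.mul_sum, ← Finset.mul_sum, hkN, Finset.sum_const,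
      nsmul_eq_mul, hc]
    have : ∑ p ∈ TP E, ord p = m * cntN E := hmN
    rw [this]
    ring
  have e2 : ∑ p ∈ TP E, (ord p - m) ^ 2 = cntQ E - m ^ 2 * cntN E := by
    have h : ∀ p ∈ TP E, (ord p - m) ^ 2 = ord p ^ 2 - 2 * m * ord p + m ^ 2 := by
      intro p _
      ring
    rw [Finset.sum_congr rfl h, Finset.sum_add_distrib, Finset.sum_sub_distrib,
      ← Finset.mul_sum, Finset.sum_const, nsmul_eq_mul, hc]
    have : ∑ p ∈ TP E, ord p = m * cntN E := hmN
    rw [this]
    unfold cntQ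
    ring
  have e3 : ∑ p ∈ TP E, (β p - k) ^ 2 = (∑ p ∈ TP E, β p ^ 2) - k ^ 2 * cntN E := by
    have h : ∀ p ∈ TP E, (β p - k) ^ 2 = β p ^ 2 - 2 * k * β p + k ^ 2 := by
      intro p _
      ring
    rw [Finset.sum_congr rfl h, Finset.sum_add_distrib, Finset.sum_sub_distrib,
      ← Finset.mul_sum, Finset.sum_const, nsmul_eq_mul, hc, hkN]
    ring
  have h4 : ∑ p ∈ TP E, β p ^ 2 ≤ b * (k * cntN E) := by
    rw [← hkN, Finset.mul_sum]
    apply Finset.sum_le_sum
    intro p _
    nlinarith [hβ0 p, hβ1 p]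
  have h5 : ∑ p ∈ TP E, (β p - k) ^ 2 ≤ cntN E * b ^ 2 / 4 := by
    rw [e3]
    nlinarith [mul_nonneg hN.le (sq_nonneg (b / 2 - k))]
  have h6 : 0 ≤ ∑ p ∈ TP E, (ord p - m) ^ 2 := Finset.sum_nonneg (fun p _ => sq_nonneg _)
  have h7 : (∑ p ∈ TP E, (ord p - m) * (β p - k)) ^ 2 ≤
      (∑ p ∈ TP E, (ord p - m) ^ 2) * (cntN E * b ^ 2 / 4) :=
    hCS.trans (mul_le_mul_of_nonneg_left h5 h6)
  have e4 : ∑ e ∈ B, cov E e = cntN E * ∑ p ∈ TP E, (ord p - m) * (β p - k) := by
    rw [h3, e1, hmN, hkN]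
    ring
  have e5 : cntN E * cntQ E - cntA E ^ 2 = cntN E * ∑ p ∈ TP E, (ord p - m) ^ 2 := by
    rw [e2, hmN]
    ring
  rw [e4, e5, mul_pow]
  have h8 := mul_le_mul_of_nonneg_left h7 (sq_nonneg (cntN E))
  calc cntN E ^ 2 * (∑ p ∈ TP E, (ord p - m) * (β p - k)) ^ 2
      ≤ cntN E ^ 2 * ((∑ p ∈ TP E, (ord p - m) ^ 2) * (cntN E * b ^ 2 / 4)) := h8
    _ = cntN E * (∑ p ∈ TP E, (ord p - m) ^ 2) * (cntN E ^ 2 * b ^ 2 / 4) := by ring

end Pool.Agent.LibMSB
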